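import Pool.Agent.Helper59.HR.Spec

/-!
# HR, part SPAN: the face ring modulo the linear relations is spanned by the `x^{R(σ)}`
-/

set_option autoImplicit false

open MvPolynomial Pool.Agent.Helper59.LP

namespace Pool.Agent.Helper50.HR.SPAN

variable {J : Type} [Fintype J] [DecidableEq J] {d : ℕ}

/-- the negative set of the facet `σ` -/
noncomputable def Rs (v : J → Ve d) (ξ : Ve d) (σ : Finset J) : Finset J := by
  classical exact σ.filter fun j => cf v ξ σ j < 0

/-- representable polynomials -/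
def Rep (v : J → Ve d) (ξ : Ve d) (c : J → ℝ) (k : ℕ) (f : MvPolynomial J ℝ) : Prop :=
  ∃ (b : Finset J → ℝ) (g : Finset J → MvPolynomial J ℝ) (h : Fin d → MvPolynomial J ℝ),
    (∀ B, (g B) ≠ 0 → (∀ σ ∈ Fa v c, ¬ B ⊆ σ) ∧ B.card ≤ k ∧ (g B).IsHomogeneous (k - B.card)) ∧
    (∀ i, (h i) ≠ 0 → 1 ≤ k ∧ (h i).IsHomogeneous (k - 1)) ∧
    (∀ σ, b σ ≠ 0 → σ ∈ Fa v c ∧ (Rs v ξ σ).card = k) ∧
    f = ∑ σ ∈ Fa v c, C (b σ) * xm (Rs v ξ σ) +
      ∑ B : Finset J, xm B * g B + ∑ i, th v (Pi.single i 1) * h i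

variable {v : J → Ve d} {ξ : Ve d} {c : J → ℝ} {k : ℕ}

lemma rep_zero : Rep v ξ c k 0 :=
  ⟨0, 0, 0, fun B h => absurd rfl h, fun i h => absurd rfl h, fun σ h => absurd rfl h, by simp⟩

lemma hom_of {f : MvPolynomial J ℝ} {n : ℕ} (h : f ≠ 0 → f.IsHomogeneous n) :
    f.IsHomogeneous n := by
  by_cases h0 : f = 0
  · rw [h0]; exact isHomogeneous_zero _ _ _
  · exact h h0

lemma rep_add {f f' : MvPolynomial J ℝ} (h1 : Rep v ξ c k f) (h2 : Rep v ξ c k f') :
    Rep v ξ c k (f + f') := by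
  obtain ⟨b, g, h, p1, p2, p3, p4⟩ := h1
  obtain ⟨b', g', h', q1, q2, q3, q4⟩ := h2
  refine ⟨b + b', g + g', h + h', ?_, ?_, ?_, ?_⟩
  · intro B hB
    have e1 : (g B).IsHomogeneous (k - B.card) := hom_of fun h0 => (p1 B h0).2.2
    have e2 : (g' B).IsHomogeneous (k - B.card) := hom_of fun h0 => (q1 B h0).2.2
    have : g B ≠ 0 ∨ g' B ≠ 0 := by
      by_contra hcon
      push Not at hcon
      exact hB (by simp [hcon.1, hcon.2])
    rcases this with h0 | h0
    · exact ⟨(p1 B h0).1, (p1 B h0).2.1, e1.add e2⟩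
    · exact ⟨(q1 B h0).1, (q1 B h0).2.1, e1.add e2⟩
  · intro i hi
    have e1 : (h i).IsHomogeneous (k - 1) := hom_of fun h0 => (p2 i h0).2
    have e2 : (h' i).IsHomogeneous (k - 1) := hom_of fun h0 => (q2 i h0).2
    have : h i ≠ 0 ∨ h' i ≠ 0 := by
      by_contra hcon
      push Not at hcon
      exact hi (by simp [hcon.1, hcon.2])
    rcases this with h0 | h0
    · exact ⟨(p2 i h0).1, e1.add e2⟩
    · exact ⟨(q2 i h0).1, e1.add e2⟩
  · intro σ hσ
    have : b σ ≠ 0 ∨ b' σ ≠ 0 := by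
      by_contra hcon
      push Not at hcon
      exact hσ (by simp [hcon.1, hcon.2])
    rcases this with h0 | h0
    · exact p3 σ h0
    · exact q3 σ h0
  · rw [p4, q4]
    simp only [Pi.add_apply, C_add, add_mul, mul_add, Finset.sum_add_distrib]
    ring

lemma rep_smul {f : MvPolynomial J ℝ} (t : ℝ) (h1 : Rep v ξ c k f) : Rep v ξ c k (C t * f) := by
  obtain ⟨b, g, h, p1, p2, p3, p4⟩ := h1
  refine ⟨fun σ => t * b σ, fun B => C t * g B, fun i => C t * h i, ?_, ?_, ?_, ?_⟩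
  · intro B hB
    have h0 : g B ≠ 0 := fun h0 => hB (by simp [h0])
    refine ⟨(p1 B h0).1, (p1 B h0).2.1, ?_⟩
    have := (isHomogeneous_C J t).mul (p1 B h0).2.2
    simpa using this
  · intro i hi
    have h0 : h i ≠ 0 := fun h0 => hi (by simp [h0])
    refine ⟨(p2 i h0).1, ?_⟩
    have := (isHomogeneous_C J t).mul (p2 i h0).2
    simpa using this
  · intro σ hσ
    have h0 : b σ ≠ 0 := fun h0 => hσ (by simp [h0])
    exact p3 σ h0
  · rw [p4]
    simp only [C_mul, mul_add, Finset.mul_sum]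
    congr 1
    · congr 1
      · apply Finset.sum_congr rfl; intro σ _; ring
      · apply Finset.sum_congr rfl; intro σ _; ring
    · apply Finset.sum_congr rfl; intro σ _; ring

lemma rep_sum {ι : Type} (s : Finset ι) (F : ι → MvPolynomial J ℝ)
    (h : ∀ i ∈ s, Rep v ξ c k (F i)) : Rep v ξ c k (∑ i ∈ s, F i) := by
  classical
  induction s using Finset.induction_on with
  | empty => simpa using rep_zero
  | insert a s ha ih =>
    rw [Finset.sum_insert ha]
    exact rep_add (h a (Finset.mem_insert_self _ _))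
      (ih fun i hi => h i (Finset.mem_insert_of_mem hi))

/-- the exponent vector of `xm B` -/
noncomputable def ev (B : Finset J) : J →₀ ℕ := ∑ j ∈ B, Finsupp.single j 1

lemma ev_apply (B : Finset J) (j : J) : ev B j = if j ∈ B then 1 else 0 := by
  rw [ev, Finsupp.finsetSum_apply]
  simp [Finsupp.single_apply]

lemma xm_eq (B : Finset J) : (xm B : MvPolynomial J ℝ) = monomial (ev B) 1 := by
  rw [xm, ev, monomial_sum_one]
  rfl

lemma ev_degree (B : Finset J) : (ev B).degree = B.card := by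
  rw [ev, map_sum]
  simp [Finsupp.degree_single]

lemma card_le_degree (a : J →₀ ℕ) (B : Finset J) (hB : ∀ j ∈ B, a j ≠ 0) :
    B.card ≤ a.degree ∧ ev B ≤ a := by
  have h : ev B ≤ a := by
    intro j
    rw [ev_apply]
    split_ifs with hj
    · have := hB j hj; omega
    · exact Nat.zero_le _
  refine ⟨?_, h⟩
  rw [← ev_degree]
  have h2 : a = ev B + (a - ev B) := (add_tsub_cancel_of_le h).symm
  rw [h2, map_add]
  omega

lemma rep_nonface (a : J →₀ ℕ) (ha : a.degree = k) (h : ∀ σ ∈ Fa v c, ¬ a.support ⊆ σ) :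
    Rep v ξ c k (monomial a 1) := by
  obtain ⟨h1, h2⟩ := card_le_degree a a.support fun j hj => Finsupp.mem_support_iff.mp hj
  have h3 : a = ev a.support + (a - ev a.support) := (add_tsub_cancel_of_le h2).symm
  have h4 : (a - ev a.support).degree = k - a.support.card := by
    have := congrArg Finsupp.degree h3
    rw [map_add, ev_degree] at this
    omega
  refine ⟨0, Pi.single a.support (monomial (a - ev a.support) 1), 0, ?_, ?_, ?_, ?_⟩
  · intro B hB
    have hBa : B = a.support := by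
      by_contra hne
      exact hB (by simp [Pi.single_eq_of_ne hne])
    subst hBa
    rw [Pi.single_eq_same]
    exact ⟨h, by omega, isHomogeneous_monomial _ h4⟩
  · intro i hi; exact absurd rfl hi
  · intro i hi; exact absurd rfl hi
  · rw [Finset.sum_eq_single_of_mem a.support (Finset.mem_univ _)]
    · rw [Pi.single_eq_same, xm_eq, monomial_mul, ← h3]
      simp
    · intro B _ hB
      rw [Pi.single_eq_of_ne hB, mul_zero]

lemma rep_R {σ : Finset J} (hσ : σ ∈ Fa v c) (hk : (Rs v ξ σ).card = k) :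
    Rep v ξ c k (xm (Rs v ξ σ)) := by
  refine ⟨Pi.single σ 1, 0, 0, ?_, ?_, ?_, ?_⟩
  · intro i hi; exact absurd rfl hi
  · intro i hi; exact absurd rfl hi
  · intro τ hτ
    have : τ = σ := by
      by_contra hne
      exact hτ (by simp [Pi.single_eq_of_ne hne])
    subst this
    exact ⟨hσ, hk⟩
  · rw [Finset.sum_eq_single_of_mem σ hσ]
    · simp
    · intro τ _ hτ
      rw [Pi.single_eq_of_ne hτ]; simp

lemma dt_expand (m x : Ve d) : dt m x = ∑ i, m i * dt (Pi.single i 1) x := by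
  unfold dt
  apply Finset.sum_congr rfl
  intro i _
  congr 1
  rw [Finset.sum_eq_single_of_mem i (Finset.mem_univ _)]
  · simp
  · intro j _ hj
    simp [Pi.single_eq_of_ne hj]

lemma th_expand (m : Ve d) : th v m = ∑ i, C (m i) * th v (Pi.single i 1) := by
  unfold th Lf
  simp only [Finset.mul_sum]
  rw [Finset.sum_comm]
  apply Finset.sum_congr rfl
  intro j _
  rw [dt_expand m (v j), map_sum, Finset.sum_mul]
  apply Finset.sum_congr rfl
  intro i _
  rw [C_mul]; ring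

lemma rep_th (m : Ve d) (hk : 1 ≤ k) (f : MvPolynomial J ℝ) (hf : f.IsHomogeneous (k - 1)) :
    Rep v ξ c k (th v m * f) := by
  refine ⟨0, 0, fun i => C (m i) * f, ?_, ?_, ?_, ?_⟩
  · intro i hi; exact absurd rfl hi
  · intro i _
    refine ⟨hk, ?_⟩
    have := (isHomogeneous_C J (m i)).mul hf
    simpa using this
  · intro i hi; exact absurd rfl hi
  · rw [th_expand, Finset.sum_mul]
    simp only [Pi.zero_apply, C_0, zero_mul, mul_zero, Finset.sum_const_zero, zero_add]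
    apply Finset.sum_congr rfl
    intro i _
    ring

/-! ### geometry -/

lemma dt_add_smul (m u x : Ve d) (s : ℝ) : dt (m + s • u) x = dt m x + s * dt u x := by
  unfold dt
  simp only [Pi.add_apply, Pi.smul_apply, smul_eq_mul, add_mul, Finset.sum_add_distrib,
    Finset.mul_sum]
  congr 1
  apply Finset.sum_congr rfl
  intro i _
  ring

lemma dt_sum (m : Ve d) (g : J → ℝ) : dt m (∑ j, g j • v j) = ∑ j, g j * dt m (v j) := by
  unfold dt
  simp only [Finset.sum_apply, Pi.smul_apply, smul_eq_mul, Finset.mul_sum]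
  rw [Finset.sum_comm]
  apply Finset.sum_congr rfl
  intro j _
  apply Finset.sum_congr rfl
  intro i _
  ring

lemma mem_ac {m : Ve d} {j : J} : j ∈ ac v c m ↔ dt m (v j) = c j := by
  classical
  simp [ac]

lemma mem_Fa {σ : Finset J} :
    σ ∈ Fa v c ↔ σ.card = d ∧ Ind v σ ∧ ∃ m, Fe v c m ∧ ac v c m = σ := by
  classical
  simp [Fa]

lemma mem_Rs {σ : Finset J} {j : J} : j ∈ Rs v ξ σ ↔ j ∈ σ ∧ cf v ξ σ j < 0 := by
  classical
  simp [Rs]

/-- the edge: if `i ∈ R(σ)` there is a higher facet containing `σ - i` -/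
lemma edge (hCF : S_CF) (hPS : PS v) (hSim : Sim v c ∅) {σ : Finset J} {m₀ : Ve d}
    (hcard : σ.card = d) (hInd : Ind v σ) (hFe : Fe v c m₀) (hac : ac v c m₀ = σ) {i : J}
    (hi : i ∈ Rs v ξ σ) :
    ∃ (σ' : Finset J) (m₁ : Ve d), σ'.card = d ∧ Ind v σ' ∧ Fe v c m₁ ∧ ac v c m₁ = σ' ∧
      σ.erase i ⊆ σ' ∧ dt m₀ ξ < dt m₁ ξ := by
  classical
  obtain ⟨hiσ, hneg⟩ := mem_Rs.mp hi
  obtain ⟨hc0, hsum, -, -, hex⟩ := hCF J d v ξ σ hcard hInd
  obtain ⟨u, hu, -⟩ := hex fun j => if j = i then -1 else 0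
  have hui : dt u (v i) = -1 := by simpa using hu i hiσ
  have huj : ∀ j ∈ σ, j ≠ i → dt u (v j) = 0 := fun j hj hne => by simpa [hne] using hu j hj
  have huξ : 0 < dt u ξ := by
    rw [← hsum, dt_sum, Finset.sum_eq_single_of_mem i (Finset.mem_univ _)]
    · rw [hui]; linarith
    · intro j _ hne
      by_cases hj : j ∈ σ
      · rw [huj j hj hne, mul_zero]
      · rw [hc0 j hj, zero_mul]
  -- the set of the blocking constraints
  set S : Finset J := Finset.univ.filter fun j => 0 < dt u (v j) with hS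
  have hSne : S.Nonempty := by
    by_contra hcon
    rw [Finset.not_nonempty_iff_eq_empty] at hcon
    have h0 : ∀ j, 0 ≤ dt (-u) (v j) := by
      intro j
      have h1 : j ∉ S := by rw [hcon]; exact Finset.notMem_empty j
      have h2 : ¬ 0 < dt u (v j) := fun h => h1 (by simp [hS, h])
      have h3 : dt (-u) (v j) = - dt u (v j) := by
        unfold dt; simp [Finset.sum_neg_distrib]
      rw [h3]; linarith
    have h4 := hPS (-u) h0
    have h5 : u = 0 := neg_eq_zero.mp h4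
    rw [h5] at hui
    unfold dt at hui
    simp at hui
  have hSσ : ∀ j ∈ S, j ∉ σ := by
    intro j hj hjσ
    have h1 : 0 < dt u (v j) := (Finset.mem_filter.mp hj).2
    by_cases hne : j = i
    · rw [hne, hui] at h1; linarith
    · rw [huj j hjσ hne] at h1; exact lt_irrefl _ h1
  obtain ⟨j₀, hj₀, hmin⟩ := Finset.exists_min_image S
    (fun j => (c j - dt m₀ (v j)) / dt u (v j)) hSne
  have hlt : ∀ j, j ∉ σ → dt m₀ (v j) < c j := by
    intro j hj
    refine lt_of_le_of_ne (hFe j) fun h => hj ?_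
    rw [← hac]; exact mem_ac.mpr h
  have hpos₀ : 0 < dt u (v j₀) := (Finset.mem_filter.mp hj₀).2
  set s : ℝ := (c j₀ - dt m₀ (v j₀)) / dt u (v j₀) with hs
  have hs0 : 0 < s := div_pos (by linarith [hlt j₀ (hSσ j₀ hj₀)]) hpos₀
  have hFe1 : Fe v c (m₀ + s • u) := by
    intro j
    rw [dt_add_smul]
    by_cases hj : j ∈ S
    · have hp : 0 < dt u (v j) := (Finset.mem_filter.mp hj).2
      have h1 : s ≤ (c j - dt m₀ (v j)) / dt u (v j) := hmin j hj
      rw [le_div_iff₀ hp] at h1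
      linarith
    · have hp : dt u (v j) ≤ 0 := by
        by_contra hcon
        exact hj (by simp [hS]; linarith)
      have := hFe j
      nlinarith
  have hsub : σ.erase i ⊆ ac v c (m₀ + s • u) := by
    intro j hj
    obtain ⟨hne, hjσ⟩ := Finset.mem_erase.mp hj
    rw [mem_ac, dt_add_smul, huj j hjσ hne, mul_zero, add_zero]
    rw [← hac] at hjσ
    exact mem_ac.mp hjσ
  have hj₀ac : j₀ ∈ ac v c (m₀ + s • u) := by
    rw [mem_ac, dt_add_smul, hs]
    field_simp
    ring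
  have hInd1 := hSim (m₀ + s • u) hFe1 (Finset.empty_subset _)
  have hle : (ac v c (m₀ + s • u)).card ≤ d := by
    have := LinearIndependent.fintype_card_le_finrank hInd1
    simpa using this
  have hge : d ≤ (ac v c (m₀ + s • u)).card := by
    have h1 : (insert j₀ (σ.erase i)).card = d := by
      rw [Finset.card_insert_of_notMem, Finset.card_erase_of_mem hiσ, hcard]
      · have : 0 < σ.card := Finset.card_pos.mpr ⟨i, hiσ⟩
        omega
      · exact fun h => hSσ j₀ hj₀ (Finset.mem_of_mem_erase h)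
    refine h1.symm.le.trans ?_
    apply Finset.card_le_card
    exact Finset.insert_subset hj₀ac hsub
  refine ⟨ac v c (m₀ + s • u), m₀ + s • u, le_antisymm hle hge, hInd1, hFe1, rfl, hsub, ?_⟩
  rw [dt_add_smul]
  have := mul_pos hs0 huξ
  linarith

/-- a facet containing `R(σ)` is lower than `σ` -/
lemma lower (hCF : S_CF) (hGX : GX v ξ) {σ ρ : Finset J} {m₀ m₁ : Ve d}
    (hcard : σ.card = d) (hInd : Ind v σ) (hac : ac v c m₀ = σ)
    (hcard1 : ρ.card = d) (hFe1 : Fe v c m₁) (hac1 : ac v c m₁ = ρ)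
    (hR : Rs v ξ σ ⊆ ρ) (hne : ρ ≠ σ) : dt m₁ ξ < dt m₀ ξ := by
  classical
  obtain ⟨hc0, hsum, -, -, -⟩ := hCF J d v ξ σ hcard hInd
  have hns : ¬ σ ⊆ ρ := fun h => hne (Finset.eq_of_subset_of_card_le h (by omega)).symm
  obtain ⟨j₁, hj₁, hj₁'⟩ := Finset.not_subset.mp hns
  have key : ∀ j, cf v ξ σ j * dt m₁ (v j) ≤ cf v ξ σ j * dt m₀ (v j) := by
    intro j
    by_cases hj : j ∈ σ
    · have h0 : dt m₀ (v j) = c j := by rw [← hac] at hj; exact mem_ac.mp hj
      rcases lt_trichotomy (cf v ξ σ j) 0 with h | h | h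
      · have h1 : j ∈ ρ := hR (mem_Rs.mpr ⟨hj, h⟩)
        have h2 : dt m₁ (v j) = c j := by rw [← hac1] at h1; exact mem_ac.mp h1
        rw [h0, h2]
      · rw [h]; simp
      · have := hFe1 j
        rw [h0]
        exact mul_le_mul_of_nonneg_left this h.le
    · rw [hc0 j hj]; simp
  have hlt : cf v ξ σ j₁ * dt m₁ (v j₁) < cf v ξ σ j₁ * dt m₀ (v j₁) := by
    have h0 : dt m₀ (v j₁) = c j₁ := by rw [← hac] at hj₁; exact mem_ac.mp hj₁
    have h1 : dt m₁ (v j₁) < c j₁ := by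
      refine lt_of_le_of_ne (hFe1 j₁) fun h => hj₁' ?_
      rw [← hac1]; exact mem_ac.mpr h
    have h2 : 0 < cf v ξ σ j₁ := by
      rcases lt_trichotomy (cf v ξ σ j₁) 0 with h | h | h
      · exact absurd (hR (mem_Rs.mpr ⟨hj₁, h⟩)) hj₁'
      · exact absurd h (hGX σ hcard hInd j₁ hj₁)
      · exact h
    rw [h0]
    exact mul_lt_mul_of_pos_left h1 h2
  have e1 : dt m₁ ξ = ∑ j, cf v ξ σ j * dt m₁ (v j) := by rw [← dt_sum, hsum]
  have e0 : dt m₀ ξ = ∑ j, cf v ξ σ j * dt m₀ (v j) := by rw [← dt_sum, hsum]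
  rw [e1, e0]
  exact Finset.sum_lt_sum (fun j _ => key j) ⟨j₁, Finset.mem_univ _, hlt⟩

open Classical in
/-- a vertex of the facet -/
noncomputable def mv (v : J → Ve d) (c : J → ℝ) (σ : Finset J) : Ve d :=
  if h : ∃ m, Fe v c m ∧ ac v c m = σ then Classical.choose h else 0

lemma mv_spec {σ : Finset J} (h : σ ∈ Fa v c) : Fe v c (mv v c σ) ∧ ac v c (mv v c σ) = σ := by
  have h1 := (mem_Fa.mp h).2.2
  rw [mv, dif_pos h1]
  exact Classical.choose_spec h1

lemma mv_eq (hCF : S_CF) {σ : Finset J} {m : Ve d} (hcard : σ.card = d) (hInd : Ind v σ)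
    (hFe : Fe v c m) (hac : ac v c m = σ) : mv v c σ = m := by
  have hσ : σ ∈ Fa v c := mem_Fa.mpr ⟨hcard, hInd, m, hFe, hac⟩
  obtain ⟨h1, h2⟩ := mv_spec hσ
  obtain ⟨-, -, -, -, hex⟩ := hCF J d v 0 σ hcard hInd
  obtain ⟨w, -, hw⟩ := hex c
  rw [hw (mv v c σ) fun j hj => by rw [← h2] at hj; exact mem_ac.mp hj]
  rw [hw m fun j hj => by rw [← hac] at hj; exact mem_ac.mp hj]

open Classical in
/-- the rank of a support -/
noncomputable def rnk (v : J → Ve d) (ξ : Ve d) (c : J → ℝ) (τ : Finset J) : Finset (Finset J) :=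
  (Fa v c).filter fun ρ => ∃ σ ∈ Fa v c, τ ⊆ σ ∧ dt (mv v c ρ) ξ ≤ dt (mv v c σ) ξ

lemma mem_rnk {τ ρ : Finset J} : ρ ∈ rnk v ξ c τ ↔ ρ ∈ Fa v c ∧
    ∃ σ ∈ Fa v c, τ ⊆ σ ∧ dt (mv v c ρ) ξ ≤ dt (mv v c σ) ξ := by
  classical
  simp [rnk]

lemma mono_rep (hCF : S_CF) (hPS : PS v) (hGX : GX v ξ) (hSim : Sim v c ∅) :
    ∀ (n : ℕ) (a : J →₀ ℕ), (rnk v ξ c a.support).card = n → a.degree = k →
    Rep v ξ c k (monomial a 1) := by
  classical
  intro n
  induction n using Nat.strong_induction_on with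
  | _ n ih =>
  intro a hn ha
  by_cases hface : ∀ σ ∈ Fa v c, ¬ a.support ⊆ σ
  · exact rep_nonface a ha hface
  push Not at hface
  obtain ⟨σ₁, hσ₁, hsub₁⟩ := hface
  obtain ⟨σ, hσ, hmax⟩ := Finset.exists_max_image
    ((Fa v c).filter fun σ => a.support ⊆ σ) (fun σ => dt (mv v c σ) ξ)
    ⟨σ₁, Finset.mem_filter.mpr ⟨hσ₁, hsub₁⟩⟩
  obtain ⟨hσF, hτσ⟩ := Finset.mem_filter.mp hσ
  obtain ⟨hcard, hInd, -⟩ := mem_Fa.mp hσF
  obtain ⟨hFe, hac⟩ := mv_spec hσF
  have hR : Rs v ξ σ ⊆ a.support := by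
    intro i hi
    by_contra hia
    obtain ⟨σ', m₁, h1, h2, h3, h4, h5, h6⟩ := edge hCF hPS hSim hcard hInd hFe hac hi
    have h7 : σ' ∈ Fa v c := mem_Fa.mpr ⟨h1, h2, m₁, h3, h4⟩
    have h8 : a.support ⊆ σ' := fun j hj =>
      h5 (Finset.mem_erase.mpr ⟨fun h => hia (h ▸ hj), hτσ hj⟩)
    have h9 := hmax σ' (Finset.mem_filter.mpr ⟨h7, h8⟩)
    rw [mv_eq hCF h1 h2 h3 h4] at h9
    linarith
  have hRa : ev (Rs v ξ σ) ≤ a :=
    (card_le_degree a _ fun j hj => Finsupp.mem_support_iff.mp (hR hj)).2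
  by_cases haR : a = ev (Rs v ξ σ)
  · have h1 : (Rs v ξ σ).card = k := by rw [← ev_degree, ← haR, ha]
    have := rep_R (v := v) (ξ := ξ) (c := c) hσF h1
    rwa [xm_eq, ← haR] at this
  -- a variable to be replaced
  obtain ⟨j, hj⟩ : ∃ j, ev (Rs v ξ σ) j < a j := by
    by_contra hcon
    push Not at hcon
    exact haR (Finsupp.ext fun j => le_antisymm (hcon j) (hRa j))
  have hja : j ∈ a.support := by
    rw [Finsupp.mem_support_iff]; omega
  have hjσ : j ∈ σ := hτσ hja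
  set b : J →₀ ℕ := a - Finsupp.single j 1 with hb
  have hab : a = Finsupp.single j 1 + b := by
    rw [hb]
    refine (add_tsub_cancel_of_le ?_).symm
    rw [Finsupp.single_le_iff]; omega
  have hk : b.degree + 1 = k := by
    rw [← ha, hab, map_add, Finsupp.degree_single]
    omega
  have hRb : ∀ i ∈ Rs v ξ σ, b i ≠ 0 := by
    intro i hi
    have h1 : ev (Rs v ξ σ) i = 1 := by rw [ev_apply, if_pos hi]
    have h2 := hRa i
    rw [hb, Finsupp.tsub_apply]
    by_cases hij : j = i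
    · subst hij
      rw [Finsupp.single_eq_same]; omega
    · rw [Finsupp.single_eq_of_ne (Ne.symm hij)]; omega
  obtain ⟨-, -, -, -, hex⟩ := hCF J d v ξ σ hcard hInd
  obtain ⟨m, hm, -⟩ := hex fun i => if i = j then 1 else 0
  have hmj : dt m (v j) = 1 := by simpa using hm j hjσ
  have hmi : ∀ i ∈ σ, i ≠ j → dt m (v i) = 0 := fun i hi hne => by simpa [hne] using hm i hi
  have hth : th v m = X j + ∑ i ∈ σᶜ, C (dt m (v i)) * X i := by
    have h0 : th v m = ∑ i, C (dt m (v i)) * X i := rfl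
    rw [h0, ← Finset.sum_add_sum_compl σ, Finset.sum_eq_single_of_mem j hjσ]
    · rw [hmj]; simp
    · intro i hi hne
      rw [hmi i hi hne]; simp
  have hmono : (monomial a (1 : ℝ)) = th v m * monomial b 1
      + ∑ i ∈ σᶜ, C (-(dt m (v i))) * monomial (Finsupp.single i 1 + b) 1 := by
    have e1 : ∀ i, (monomial (Finsupp.single i 1 + b) (1 : ℝ)) = X i * monomial b 1 := by
      intro i
      rw [X, monomial_mul, one_mul]
    rw [hth, hab, e1 j, add_mul, Finset.sum_mul]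
    simp only [e1, C_neg, neg_mul, Finset.sum_neg_distrib]
    have : ∀ i, C (dt m (v i)) * X i * (monomial b) (1 : ℝ)
        = C (dt m (v i)) * (X i * (monomial b) 1) := fun i => by ring
    simp only [this]
    ring
  rw [hmono]
  refine rep_add (rep_th m (by omega) _ (isHomogeneous_monomial _ (by omega))) ?_
  refine rep_sum _ _ fun i hi => rep_smul _ ?_
  have hiσ : i ∉ σ := Finset.mem_compl.mp hi
  have hsubR : Rs v ξ σ ⊆ (Finsupp.single i 1 + b).support := by
    intro l hl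
    rw [Finsupp.mem_support_iff, Finsupp.add_apply]
    have := hRb l hl
    omega
  have hisup : i ∈ (Finsupp.single i 1 + b).support := by
    rw [Finsupp.mem_support_iff, Finsupp.add_apply, Finsupp.single_eq_same]
    omega
  have hlow : ∀ ρ ∈ Fa v c, (Finsupp.single i 1 + b).support ⊆ ρ →
      dt (mv v c ρ) ξ < dt (mv v c σ) ξ := by
    intro ρ hρ hs
    obtain ⟨hc1, hI1, -⟩ := mem_Fa.mp hρ
    obtain ⟨hF1, ha1⟩ := mv_spec hρ
    exact lower hCF hGX hcard hInd hac hc1 hF1 ha1 (hsubR.trans hs)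
      (fun h => hiσ (h ▸ hs hisup))
  refine ih _ ?_ _ rfl ?_
  · rw [← hn]
    apply Finset.card_lt_card
    rw [Finset.ssubset_iff_of_subset]
    · refine ⟨σ, mem_rnk.mpr ⟨hσF, σ, hσF, hτσ, le_refl _⟩, fun hcon => ?_⟩
      obtain ⟨-, σ', hσ', hs, hle⟩ := mem_rnk.mp hcon
      have := hlow σ' hσ' hs
      linarith
    · intro ρ hρ
      obtain ⟨hρF, σ', hσ', hs, hle⟩ := mem_rnk.mp hρ
      exact mem_rnk.mpr ⟨hρF, σ, hσF, hτσ, hle.trans (hlow σ' hσ' hs).le⟩
  · rw [map_add, Finsupp.degree_single]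
    omega

theorem main (hCF : S_CF) : S_SPAN := by
  classical
  intro J _ _ d v ξ c k f hPS hGX hSim hf
  have h : Rep v ξ c k f := by
    rw [f.as_sum]
    refine rep_sum _ _ fun a ha => ?_
    have h1 : a.degree = k := by
      by_contra hcon
      exact (mem_support_iff.mp ha) (hf.coeff_eq_zero hcon)
    have h2 := rep_smul (coeff a f) (mono_rep (k := k) hCF hPS hGX hSim _ a rfl h1)
    rwa [C_mul_monomial, mul_one] at h2
  obtain ⟨b, g, h, p1, p2, p3, p4⟩ := h
  refine ⟨b, g, h, p1, p2, ?_, ?_⟩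
  · intro σ hσ
    obtain ⟨q1, q2⟩ := p3 σ hσ
    refine ⟨q1, ?_⟩
    rw [← q2, Rs]
  · rw [p4]
    congr 3

end Pool.Agent.Helper50.HR.SPAN
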